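import Pool.Agent.Helper38.FW.Defs

/-!
# The density theorem for all characters (MP_fc6b1e_nt): definitions

`Ω` is the algebraic closure of the number field `K`.
-/

namespace Pool.Agent.Helper38.FY

open NumberField Module IsDedekindDomain Pool.Agent.Helper51.SigLeo Pool.Agent.Helper38.FD
open Pool.Agent.Helper38.FW (IsOmega)

/-- A base character `κ`: a character of `Gal(Ω/K)` of finite order with values in `ℂ_p`, with field `H`, together
with a `p`-ordinary CM type `S` of `K`. -/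
structure BaseChr {p : ℕ} [Fact p.Prime] {K : Type} [Field K] [NumberField K]
    (ιinf : AlgebraicClosure K →+* ℂ) (ιp : AlgebraicClosure K →+* ℂ_[p]) where
  /-- the CM type -/
  S : Set (K →+* ℂ)
  /-- the character -/
  κ : Chr K (AlgebraicClosure K) ℂ_[p]
  /-- the field of `κ` -/
  H : IntermediateField K (AlgebraicClosure K)
  isCMType : IsCMType S
  isOrdinary : IsOrdinary ιinf ιp S
  finite : FiniteDimensional K H
  cutsOut : CutsOut κ H

/-- The number `Q = p^f` of the elements of the finite field generated by the values of `κ` modulo the maximal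
ideal: `f` is the smallest positive integer such that `κ(g)^(p^f) ≡ κ(g)` for all `g`. -/
noncomputable def BaseChr.Q {p : ℕ} [Fact p.Prime] {K : Type} [Field K] [NumberField K]
    {ιinf : AlgebraicClosure K →+* ℂ} {ιp : AlgebraicClosure K →+* ℂ_[p]}
    (D : BaseChr ιinf ιp) : ℕ :=
  p ^ sInf {f : ℕ | 0 < f ∧ ∀ g : AlgebraicClosure K ≃ₐ[K] AlgebraicClosure K,
    ‖((D.κ g : ℂ_[p]ˣ) : ℂ_[p]) ^ p ^ f - (D.κ g : ℂ_[p]ˣ)‖ < 1}

open Classical in
/-- The constant of the base character: `√Q/(Q - 1)` if some `κ^(1 + p^j)` is congruent to `ω` but `κ²` is not, and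
`1/(Q - 1)` otherwise. -/
noncomputable def BaseChr.theta {p : ℕ} [Fact p.Prime] {K : Type} [Field K] [NumberField K]
    {ιinf : AlgebraicClosure K →+* ℂ} {ιp : AlgebraicClosure K →+* ℂ_[p]}
    (D : BaseChr ιinf ιp) : ℝ :=
  if (∃ j : ℕ, IsOmega (D.κ ^ (1 + p ^ j))) ∧ ¬ IsOmega (D.κ ^ 2) then
    √(D.Q : ℝ) / ((D.Q : ℝ) - 1)
  else 1 / ((D.Q : ℝ) - 1)

/-- `(N, φ)` is good for the base character `κ` if the `Σ`-Leopoldt conjecture holds for `κ φ` and all its
conjugates over `ℚ_p`. -/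
def BaseChr.Good {p : ℕ} [Fact p.Prime] {K : Type} [Field K] [NumberField K]
    {ιinf : AlgebraicClosure K →+* ℂ} {ιp : AlgebraicClosure K →+* ℂ_[p]}
    (D : BaseChr ιinf ιp) (L : IwasawaLog p ℂ_[p])
    (x : IntermediateField K (AlgebraicClosure K) × Chr K (AlgebraicClosure K) ℂ_[p]) : Prop :=
  ∀ σ : ℂ_[p] ≃ₐ[ℚ_[p]] ℂ_[p],
    LeopoldtFor ιinf ιp L D.S ((Units.map (σ : ℂ_[p] →* ℂ_[p])).comp (D.κ * x.2))

end Pool.Agent.Helper38.FY
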