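import Pool.Agent.Helper38.FY.Cnj
import Pool.Agent.Helper42.WY.DEN2I

/-! The density theorem for all characters, without hypotheses. -/

set_option autoImplicit false

namespace Pool.Agent.Helper38.FY

open NumberField Module Pool.Agent.Helper51.SigLeo
open Pool.Agent.Helper38.FD (Chr)
open Pool.Agent.Helper38.FW (AllChr IsLocal IsWeight tame countChr)

theorem main_y (p : ℕ) [Fact p.Prime] (K : Type) [Field K]
    [NumberField K] (ιinf : AlgebraicClosure K →+* ℂ) (ιp : AlgebraicClosure K →+* ℂ_[p])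
    (L : IwasawaLog p ℂ_[p]) (ι : Type) [Fintype ι] [Nonempty ι] (D : ι → BaseChr ιinf ιp)
    (A : Set (IntermediateField K (AlgebraicClosure K) × Chr K (AlgebraicClosure K) ℂ_[p]))
    (hA : IsLocal A)
    (e : IntermediateField K (AlgebraicClosure K) × Chr K (AlgebraicClosure K) ℂ_[p] → ℕ)
    (he : IsWeight e) :
    (∀ X : ℕ, {x | x ∈ AllChr p K ∧ tame p K x.1 * e x ≤ X}.Finite) ∧
    (∀ η : ℝ, 0 < η → ∀ᶠ X : ℕ in Filter.atTop,
      countChr e {x | x ∈ A ∧ ∃ i, ¬ (D i).Good L x} X ≤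
        (∑ i, (D i).theta + η) * countChr e A X) ∧
    (∃ δ : ℝ, 0 < δ ∧ ∀ᶠ X : ℕ in Filter.atTop,
      0 < countChr e (AllChr p K) X ∧ δ * countChr e (AllChr p K) X ≤ countChr e A X) :=
  main_y2 Pool.Agent.Helper42.WY.i_den2 p K ιinf ιp L ι D A hA e he

end Pool.Agent.Helper38.FY
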