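import Pool.Agent.Helper38.FY.Defs
import Pool.Agent.Helper38.FW.Norm
import Pool.Agent.Helper38.FD.Split
import Pool.Agent.Helper22.RP.PHI

/-!
# The density theorem for all characters (MP_fc6b1e_nt): elementary facts on characters

Every statement is a `def ... : Prop` with its complete proof in the docstring.
-/

set_option autoImplicit false

namespace Pool.Agent.Helper38.FY

open NumberField Module Polynomial Pool.Agent.Helper38.FD

/-- **N_CNJ** (the action of the automorphisms of `ℂ_p` on roots of unity).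

PROOF. *Second part.* Let `β` be a primitive root of unity of order `p^l`; `σ β` is one too, so `σ β = β^s` with `s` prime to `p` (take `s = 1` if `l = 0`), and the `z` with `z^(p^l) = 1` are powers of `β`. *First part.* If `m = 1` take `r = 0`. Let `m > 1`, `ζ` a primitive
`m`-th root of unity, `Φ`, `P` as in `S_PHI` (`Pool.Agent.Helper22.RP.s_phi`), `σ ζ = ζ^t`. Let `R` be the subring of the elements of norm `≤ 1` (`Pool.Agent.Helper38.FW.ballR`), `𝔪` its maximal ideal (norm `< 1`), `k̄ = R/𝔪`, a field of characteristic `p`, `ζ̄` the class of `ζ`. `Φ(ζ) = 0` (`PhiData.root`) gives `P(ζ̄) = 0`; `σ` is trivial on `ℤ_p`, so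
`Φ(ζ^t) = σ(Φ(ζ)) = 0` and `P(ζ̄^t) = 0`. `P` is monic and irreducible, so it is the minimal polynomial of `ζ̄` over `F_p`, and `P` divides `P(X^t)`. So there is an endomorphism of the finite field `AdjoinRoot P` with `root ↦ root^t`, it is a power of Frobenius (`FiniteField`), and `root^t = root^(p^r)` for some `r`, so `P` divides `X^t - X^(p^r)`,
`ζ̄^t = ζ̄^(p^r)`, `‖ζ^t - ζ^(p^r)‖ < 1` and `ζ^t = ζ^(p^r)` by `Pool.Agent.Helper22.RP.one_sub_norm`. (A direct way to the last steps: any lemma which says that two roots of an irreducible polynomial over `F_p` in a field are `p^r`-th powers of each other.) -/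
def N_CNJ : Prop :=
  ∀ (p : ℕ) [Fact p.Prime] (m l : ℕ), 0 < m → m.Coprime p → ∀ σ : ℂ_[p] ≃ₐ[ℚ_[p]] ℂ_[p],
  ∃ r s : ℕ, ¬ p ∣ s ∧ (∀ z : ℂ_[p], z ^ m = 1 → σ z = z ^ p ^ r) ∧
    ∀ z : ℂ_[p], z ^ p ^ l = 1 → σ z = z ^ s

/-- **N_DCP** (decomposition of a character of finite order into the parts of order prime to `p` and of `p`-power order).

PROOF. Let `n = [H : K] = p^l m`, `p ∤ m`. `κ^n = 1` (`pow_card_desc`). Let `u ≡ 1 mod m`, `u ≡ 0 mod p^l`, `v ≡ 0 mod m`, `v ≡ 1 mod p^l` (`Nat.chineseRemainder`), so `u + v ≡ 1 mod n`; `χ = κ^u`, `ψ = κ^v`, `χ ψ = κ`, `χ^m = 1`, `ψ^(p^l) = 1`. The fields `M`, `F` exist by `exists_cutsOut` (`Pool/Agent/Helper38/FD/Split.lean`) with `X = H`;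
`Gal(M/K)` has a faithful character (`exists_faithful`) `χ'` with `χ'^m = 1`, so it has no element of order `p` and `[M : K]` is prime to `p` (Cauchy, `IsGalois.card_aut_eq_finrank`); in the same way `Gal(F/K)` is killed by `p^l`, so it is a `p`-group. -/
def N_DCP : Prop :=
  ∀ (p : ℕ) [Fact p.Prime] (K : Type) [Field K] [NumberField K]
    (κ : Chr K (AlgebraicClosure K) ℂ_[p]) (H : IntermediateField K (AlgebraicClosure K)),
    FiniteDimensional K H → CutsOut κ H →
  ∃ (χ ψ : Chr K (AlgebraicClosure K) ℂ_[p]) (M F : IntermediateField K (AlgebraicClosure K))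
    (l : ℕ), κ = χ * ψ ∧ FiniteDimensional K M ∧ CutsOut χ M ∧ (finrank K M).Coprime p ∧
    CutsOut ψ F ∧ finrank K F = p ^ l

end Pool.Agent.Helper38.FY
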