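import Pool.Agent.Helper38.FY.Red
import Pool.Agent.Helper38.WY.Goals8

/-! The density theorem for all characters: the readable form from `Y_DEN2`. -/

set_option autoImplicit false

namespace Pool.Agent.Helper38.FY

open NumberField Module IsDedekindDomain Pool.Agent.Helper51.SigLeo Pool.Agent.Helper38.FD
open Pool.Agent.Helper38.FW (IsOmega OmegaAt AllChr IsLocal IsWeight tame countChr tame_eq
  allChr_eq sameAt_iff cntE condP LocE orderOf_zmod cutsOut_pow pow_class)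
open Pool.Agent.Helper77.PPB (ChN)
open Pool.Agent.Helper42.PW (LocC)
open Pool.Agent.Helper38.WY (Y_DEN2 GoodX)

variable {p : ℕ} [Fact p.Prime] {K : Type} [Field K] [NumberField K]

/-- The conjugates of `χ ψ φ`. -/
theorem conj_eq (hC : N_CNJ) {χ ψ φ : Chr K (AlgebraicClosure K) ℂ_[p]}
    {M F N : IntermediateField K (AlgebraicClosure K)} [FiniteDimensional K M] (hM : CutsOut χ M)
    (hc : (finrank K M).Coprime p) (hF : CutsOut ψ F) {l : ℕ} (hl : finrank K F = p ^ l)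
    (hφ : CutsOut φ N) (hN : finrank K N = p) (σ : ℂ_[p] ≃ₐ[ℚ_[p]] ℂ_[p]) :
    ∃ r s : ℕ, ¬ p ∣ s ∧ (Units.map (σ : ℂ_[p] →* ℂ_[p])).comp (χ * ψ * φ) =
      χ ^ p ^ r * (ψ * φ) ^ s := by
  have hp : p.Prime := Fact.out
  have hfF : FiniteDimensional K F := FiniteDimensional.of_finrank_pos (by
    rw [hl]; exact pow_pos hp.pos l)
  have hfN : FiniteDimensional K N := FiniteDimensional.of_finrank_pos (by
    rw [hN]; exact hp.pos)
  obtain ⟨r, s, hs, h1, h2⟩ := hC p (finrank K M) (l + 1) finrank_pos hc σ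
  refine ⟨r, s, hs, MonoidHom.ext fun g ↦ Units.ext ?_⟩
  have e1 : ((χ g : ℂ_[p]ˣ) : ℂ_[p]) ^ finrank K M = 1 := val_card hM g
  have e2 : (((ψ * φ) g : ℂ_[p]ˣ) : ℂ_[p]) ^ p ^ (l + 1) = 1 := by
    rw [val_mul, mul_pow]
    have a1 : ((ψ g : ℂ_[p]ˣ) : ℂ_[p]) ^ p ^ l = 1 := by rw [← hl]; exact val_card hF g
    have a2 : ((φ g : ℂ_[p]ˣ) : ℂ_[p]) ^ p = 1 := by
      have := val_card hφ g
      rwa [hN] at this
    rw [pow_succ, pow_mul, a1, one_pow, one_mul, mul_comm, pow_mul, a2, one_pow]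
  show σ ((((χ * ψ * φ) g : ℂ_[p]ˣ) : ℂ_[p])) = ((((χ ^ p ^ r * (ψ * φ) ^ s) g : ℂ_[p]ˣ)) : ℂ_[p])
  have e3 : ((((χ * ψ * φ) g : ℂ_[p]ˣ) : ℂ_[p])) =
      ((χ g : ℂ_[p]ˣ) : ℂ_[p]) * (((ψ * φ) g : ℂ_[p]ˣ) : ℂ_[p]) := by
    rw [val_mul, val_mul, val_mul, mul_assoc]
  have e4 : ((((χ ^ p ^ r * (ψ * φ) ^ s) g : ℂ_[p]ˣ)) : ℂ_[p]) =
      ((χ g : ℂ_[p]ˣ) : ℂ_[p]) ^ p ^ r * (((ψ * φ) g : ℂ_[p]ˣ) : ℂ_[p]) ^ s := by
    rw [val_mul, val_pow, val_pow]
  rw [e3, e4, map_mul, h1 _ e1, h2 _ e2]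

theorem chr_pow_one (χ : Chr K (AlgebraicClosure K) ℂ_[p]) : χ ^ 1 = χ := by
  refine MonoidHom.ext fun g ↦ Units.ext ?_
  rw [val_pow, pow_one]

theorem q_eq {ιinf : AlgebraicClosure K →+* ℂ} {ιp : AlgebraicClosure K →+* ℂ_[p]}
    (D : BaseChr ιinf ιp) {χ ψ : Chr K (AlgebraicClosure K) ℂ_[p]}
    {M F : IntermediateField K (AlgebraicClosure K)} [FiniteDimensional K M]
    (hκ : D.κ = χ * ψ) (hM : CutsOut χ M)
    (hc : (finrank K M).Coprime p) (hF : CutsOut ψ F) {l : ℕ} (hl : finrank K F = p ^ l) :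
    (D.Q : ℝ) = (p : ℝ) ^ orderOf (p : ZMod (finrank K M)) := by
  unfold BaseChr.Q
  rw [hκ, setQ_eq hM hc hF hl, orderOf_zmod finrank_pos hc (Fact.out : p.Prime).pos, Nat.cast_pow]

theorem main_y' (h : Y_DEN2) (hC : N_CNJ) (hD : N_DCP) (p : ℕ) [Fact p.Prime] (K : Type) [Field K]
    [NumberField K] (ιinf : AlgebraicClosure K →+* ℂ) (ιp : AlgebraicClosure K →+* ℂ_[p])
    (L : IwasawaLog p ℂ_[p]) (ι : Type) [Fintype ι] [Nonempty ι] (D : ι → BaseChr ιinf ιp)
    (A : Set (IntermediateField K (AlgebraicClosure K) × Chr K (AlgebraicClosure K) ℂ_[p]))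
    (hA : IsLocal A)
    (e : IntermediateField K (AlgebraicClosure K) × Chr K (AlgebraicClosure K) ℂ_[p] → ℕ)
    (he : IsWeight e) :
    (∀ X : ℕ, {x | x ∈ AllChr p K ∧ tame p K x.1 * e x ≤ X}.Finite) ∧
    (∀ η : ℝ, 0 < η → ∀ᶠ X : ℕ in Filter.atTop,
      countChr e {x | x ∈ A ∧ ∃ i, ¬ (D i).Good L x} X ≤
        (∑ i, (D i).theta + η) * countChr e A X) ∧
    (∃ δ : ℝ, 0 < δ ∧ ∀ᶠ X : ℕ in Filter.atTop,
      0 < countChr e (AllChr p K) X ∧ δ * countChr e (AllChr p K) X ≤ countChr e A X) := by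
  classical
  have hp : p.Prime := Fact.out
  choose χ ψ M F l hκ hfin hM hc hF hl using fun i ↦ hD p K (D i).κ (D i).H (D i).finite (D i).cutsOut
  set ee := Fintype.equivFin ι with hee
  have hp1 : (1 : ℝ) < p := by exact_mod_cast hp.one_lt
  have hQ : ∀ i, ((D i).Q : ℝ) = (p : ℝ) ^ orderOf (p : ZMod (finrank K (M i))) := fun i ↦ by
    have := hfin i
    exact q_eq (D i) (hκ i) (hM i) (hc i) (hF i) (hl i)
  have ho : ∀ i, 0 < orderOf (p : ZMod (finrank K (M i))) := by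
    intro i
    have := hfin i
    have : NeZero (finrank K (M i)) := ⟨finrank_pos.ne'⟩
    obtain ⟨u, hu⟩ := (ZMod.isUnit_iff_coprime p _).2 (hc i).symm
    rw [← hu, orderOf_units]
    exact orderOf_pos u
  have hQ1 : ∀ i, (1 : ℝ) < (D i).Q := by
    intro i
    rw [hQ i]
    exact one_lt_pow₀ hp1 (ho i).ne'
  have hθ0 : ∀ i, 0 ≤ (D i).theta := by
    intro i
    have h1 := hQ1 i
    unfold BaseChr.theta
    split_ifs
    · exact div_nonneg (Real.sqrt_nonneg _) (by linarith)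
    · exact div_nonneg zero_le_one (by linarith)
  have hcnt : ∀ B X, countChr e B X = cntE e B X := fun B X ↦ by
    unfold countChr cntE
    simp only [tame_eq]
  simp only [hcnt, tame_eq, allChr_eq]
  obtain ⟨i₀⟩ := ‹Nonempty ι›
  -- `ω` for `κ` and for `χ`
  have hom : ∀ i n, IsOmega ((D i).κ ^ n) ↔ IsOmega (χ i ^ n) := fun i n ↦ by
    have := hfin i
    rw [hκ i]
    exact isOmega_iff (hM i) (hF i) (hl i) n
  -- the order of `p`
  have hord1 : ∀ i, M i = ⊥ ∨ IsOmega (χ i) → orderOf (p : ZMod (finrank K (M i))) = 1 := by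
    rintro i (h1 | h1)
    · have h5 : finrank K (M i) = 1 := by rw [h1, IntermediateField.finrank_bot]
      rw [orderOf_eq_one_iff, h5]
      exact Subsingleton.elim _ _
    · have := hfin i
      have hs := setQ_eq (hM i) (hc i) (hF i) (hl i)
      rw [orderOf_zmod finrank_pos (hc i) hp.pos, ← hs]
      refine le_antisymm (Nat.sInf_le ⟨one_pos, fun g ↦ ?_⟩) ?_
      · obtain ⟨r, hr⟩ := exists_act (p := p) g
        have h2 : IsOmega ((χ i * ψ i) ^ 1) := by
          rw [isOmega_iff (hM i) (hF i) (hl i) 1, chr_pow_one]; exact h1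
        have h3 := h2 g r hr
        rw [chr_pow_one] at h3
        have hn : ‖(((χ i * ψ i) g : ℂ_[p]ˣ) : ℂ_[p])‖ ≤ 1 := by
          have hfF : FiniteDimensional K (F i) := FiniteDimensional.of_finrank_pos (by
            rw [hl i]; exact pow_pos hp.pos (l i))
          rw [val_mul, norm_mul, Pool.Agent.Helper38.FW.norm_chr (hM i) g,
            Pool.Agent.Helper38.FW.norm_chr (hF i) g, one_mul]
        have h4 := norm_frob_lt_pow hn r 1 h3
        have e1 : (((χ i * ψ i) g : ℂ_[p]ˣ) : ℂ_[p]) ^ p ^ 1 - (((χ i * ψ i) g : ℂ_[p]ˣ) : ℂ_[p]) =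
            ((((χ i * ψ i) g : ℂ_[p]ˣ) : ℂ_[p]) ^ p ^ 1 - r) +
              -((((χ i * ψ i) g : ℂ_[p]ˣ) : ℂ_[p]) - r) := by ring
        rw [e1]
        refine (IsUltrametricDist.norm_add_le_max _ _).trans_lt (max_lt h4 ?_)
        rwa [norm_neg]
      · rw [hs, ← orderOf_zmod finrank_pos (hc i) hp.pos]
        exact ho i
  obtain ⟨h1, h2, h3⟩ := h p K ιinf ιp L (ι × ℕ) (Fintype.card ι) (fun x ↦ ee x.1)
    (fun x ↦ (D x.1).S) (fun x ↦ M x.1) (fun x ↦ F x.1)
    (fun x ↦ χ x.1 ^ p ^ x.2) (fun x ↦ ψ x.1)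
    (fun x ↦ (D x.1).isCMType) (fun x ↦ (D x.1).isOrdinary) (fun x ↦ hfin x.1)
    (fun x ↦ by have := hfin x.1; exact cutsOut_pow (hM x.1) (hc x.1) x.2)
    (fun x ↦ hc x.1)
    (fun x ↦ hF x.1) (fun x ↦ ⟨l x.1, hl x.1⟩)
    (fun x y hxy ↦ by
      have hxy : x.1 = y.1 := ee.injective hxy
      obtain ⟨i, r⟩ := x
      obtain ⟨j, s⟩ := y
      simp only at hxy
      subst hxy
      have := hfin i
      exact ⟨rfl, pow_class (hM i) (hc i) r s, rfl⟩)
    (fun t ↦ (D (ee.symm t)).theta) (fun t ↦ hθ0 _)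
    (fun x ↦ by
      obtain ⟨i, s⟩ := x
      have := hfin i
      simp only [Equiv.symm_apply_apply]
      -- Frobenius
      have hfr : ∀ n, IsOmega ((χ i ^ p ^ s) ^ n) ↔ IsOmega (χ i ^ n) := fun n ↦
        isOmega_frob (hM i) n s
      have hfr1 : IsOmega (χ i ^ p ^ s) ↔ IsOmega (χ i) := by
        have := hfr 1
        rwa [chr_pow_one, chr_pow_one] at this
      have hth := hQ i
      by_cases hM1 : M i = ⊥ ∨ IsOmega (χ i)
      · refine Or.inl ⟨?_, ?_⟩
        · rwa [hfr1]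
        · have h6 := hord1 i hM1
          rw [h6, pow_one] at hth
          unfold BaseChr.theta
          rw [if_neg, hth]
          rintro ⟨⟨j, hj⟩, hn⟩
          apply hn
          rw [hom] at hj ⊢
          -- `χ^(1 + p^j) = χ^2`
          have e5 : χ i ^ (1 + p ^ j) = χ i ^ 2 := by
            refine MonoidHom.ext fun g ↦ Units.ext ?_
            have e6 : ((χ i g : ℂ_[p]ˣ) : ℂ_[p]) ^ p = ((χ i g : ℂ_[p]ˣ) : ℂ_[p]) := by
              have e7 : (finrank K (M i)) ∣ p ^ 1 - 1 := by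
                have e8 := Nat.sInf_mem (s := {f : ℕ | 0 < f ∧ finrank K (M i) ∣ p ^ f - 1})
                  (Nat.nonempty_of_pos_sInf (by
                    rw [← orderOf_zmod finrank_pos (hc i) hp.pos]; exact ho i))
                rw [← orderOf_zmod finrank_pos (hc i) hp.pos, h6] at e8
                exact e8.2
              obtain ⟨k, hk⟩ := e7
              have e9 : p = finrank K (M i) * k + 1 := by
                have := hp.one_le
                rw [pow_one] at hk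
                omega
              have e10 := val_card (hM i) g
              have e12 : ∀ n : ℕ, n = finrank K (M i) * k + 1 →
                  ((χ i g : ℂ_[p]ˣ) : ℂ_[p]) ^ n = ((χ i g : ℂ_[p]ˣ) : ℂ_[p]) := by
                rintro n rfl
                rw [pow_succ, pow_mul, e10, one_pow, one_mul]
              exact e12 p e9
            have e11 : ∀ a : ℕ, ((χ i g : ℂ_[p]ˣ) : ℂ_[p]) ^ p ^ a = ((χ i g : ℂ_[p]ˣ) : ℂ_[p]) := by
              intro a
              induction a with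
              | zero => simp
              | succ a ih => rw [pow_succ, pow_mul, ih, e6]
            rw [val_pow, val_pow, pow_add, pow_one, e11, pow_two]
          rw [← e5]
          exact hj
      · push Not at hM1
        obtain ⟨hM1, hM2⟩ := hM1
        by_cases hj : ∃ j : ℕ, IsOmega (χ i ^ (1 + p ^ j))
        · refine Or.inr (Or.inr ⟨hM1, by rwa [hfr1], ?_⟩)
          by_cases h2 : IsOmega (χ i ^ 2)
          · refine ⟨0, ?_, Or.inl rfl, ?_⟩
            · rw [pow_zero, hfr]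
              exact h2
            · unfold BaseChr.theta
              rw [if_neg, pow_zero, hth]
              rintro ⟨-, hn⟩
              exact hn ((hom i 2).2 h2)
          · obtain ⟨j, hj1, hj2⟩ := unitary (hM i) (hc i) hj h2
            refine ⟨j, by rw [hfr]; exact hj1, Or.inr hj2, ?_⟩
            unfold BaseChr.theta
            rw [if_pos ⟨⟨j, (hom i _).2 hj1⟩, fun h9 ↦ h2 ((hom i 2).1 h9)⟩, hth]
            have e1 : √((p : ℝ) ^ orderOf (p : ZMod (finrank K (M i)))) = (p : ℝ) ^ j := by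
              rw [hj2, mul_comm, pow_mul]
              exact Real.sqrt_sq (pow_nonneg (by linarith) j)
            rw [e1]
        · refine Or.inr (Or.inl ⟨hM1, by rwa [hfr1], fun j ↦ ?_, ?_⟩)
          · rw [hfr]
            exact fun h9 ↦ hj ⟨j, h9⟩
          · unfold BaseChr.theta
            rw [if_neg, hth]
            rintro ⟨⟨j, hj'⟩, -⟩
            exact hj ⟨j, (hom i _).1 hj'⟩)
    A ⟨allChr_eq (p := p) (K := K) ▸ hA.subset, hA.nonempty, fun x hx y hy hxy ↦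
      hA.same x hx y (by rw [allChr_eq]; exact hy) ((sameAt_iff _ _).1 hxy)⟩
    e ⟨he.one_le, fun x hx y hy hxy ↦ he.same x (by rw [allChr_eq]; exact hx) y
      (by rw [allChr_eq]; exact hy) ((sameAt_iff _ _).1 hxy)⟩
  have hsum : ∑ t, (D (ee.symm t)).theta = ∑ i, (D i).theta :=
    Equiv.sum_comp ee.symm fun i ↦ (D i).theta
  have hAll : ∀ x ∈ A, x ∈ AllChr p K := fun x hx ↦ hA.subset hx
  have hG : ∀ x ∈ A, ∀ i, (∀ s : ℕ, GoodX ιinf ιp L (D i).S
      (χ i ^ p ^ s) (ψ i) x) → (D i).Good L x := by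
    intro x hx i hg σ
    have := hfin i
    obtain ⟨r, s, hs, hrs⟩ := conj_eq hC (hM i) (hc i) (hF i) (hl i) (hAll x hx).2
      (hAll x hx).1 σ
    rw [hκ i, hrs]
    exact hg r s hs
  refine ⟨h1, fun η hη ↦ ?_, h3⟩
  filter_upwards [h2 η hη] with X hX
  rw [hsum] at hX
  refine le_trans (Nat.cast_le.2 (Set.ncard_le_ncard ?_ ?_)) hX
  · rintro x ⟨⟨ha, i, hb⟩, hx⟩
    refine ⟨⟨ha, ?_⟩, hx⟩
    by_contra hcon
    push Not at hcon
    exact hb (hG x ha i fun s ↦ hcon (i, s))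
  · refine (h1 X).subset ?_
    rintro x ⟨⟨ha, -⟩, hx⟩
    exact ⟨allChr_eq (p := p) (K := K) ▸ hA.subset ha, hx⟩

end Pool.Agent.Helper38.FY
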