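import Pool.Agent.Helper38.FY.Cnj
import Pool.Agent.Helper38.WY.AsmD
import Pool.Agent.Helper42.WY.DEN2
import Pool.Agent.Helper62.WY.YNT3

/-! The density theorem for all characters, modulo the moment theorems of step 2. -/

set_option autoImplicit false

namespace Pool.Agent.Helper38.FY

open Pool.Agent.Helper38.WY

theorem a_den2 (hM3 : MOM3X) (hM4 : MOM4X) (hM40 : MOM4X0) : Y_DEN2 :=
  Pool.Agent.Helper42.WY.y_den2
    (Pool.Agent.Helper42.WY.a_momb1x a_ysel' a_yext a_fline)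
    (Pool.Agent.Helper42.WY.momrX (Pool.Agent.Helper42.WY.a_momrxr a_ysel' a_yext a_fline))
    hM3 hM4 hM40 Pool.Agent.Helper62.WY.y_nt3 a_zgl1 a_zgl0 a_ogl a_ogl0

end Pool.Agent.Helper38.FY
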