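import Pool.Agent.Helper38.FY.Pre
import Pool.Agent.Helper42.WY.MOM3
import Pool.Agent.Helper42.WY.MOM4B
import Pool.Agent.Helper42.WY.ALN
import Pool.Agent.Helper42.WY.EX1
import Pool.Agent.Helper42.WY.AZT
import Pool.Agent.Helper48.WY.ORNK
import Pool.Agent.Helper49.WY.OUPB
import Pool.Agent.Helper39.WY.OTRI

/-! The density theorem for all characters, modulo `MT₃W`, `MT₄W`, `A_NRM`, `A_OMS`, `A_HYP3`, `A_HYP4`. -/

set_option autoImplicit false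

namespace Pool.Agent.Helper38.FY

open Pool.Agent.Helper38.WY Pool.Agent.Helper42.PW
open Pool.Agent.Helper11.M3 (MT₃W MT₄W A_NRM A_OMS A_HYP3 A_HYP4)

theorem a_ornk : O_RNK := Pool.Agent.Helper48.WY.o_rnk Pool.Agent.Helper49.WY.o_upb

theorem a_mom3x (h3 : MT₃W) (hN : A_NRM) (hH : A_HYP3) : MOM3X :=
  Pool.Agent.Helper42.WY.mom3X a_ysel' a_yext (Pool.Agent.Helper42.WY.f_aln a_fline) h3 hN hH

theorem a_mom4x (h4 : MT₄W) (hN : A_NRM) (hO : A_OMS) (hH : A_HYP4) : MOM4X :=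
  Pool.Agent.Helper42.WY.mom4X a_grp a_chg Pool.Agent.Helper96.WY.y_sgb a_ypwa
    Pool.Agent.Helper39.WY.o_tri a_yext (Pool.Agent.Helper42.WY.f_aln a_fline) a_ornk h4 hN
    Pool.Agent.Helper42.WY.a_zt1 hO hH

theorem a_mom4x0 (h4 : MT₄W) (hN : A_NRM) (hO : A_OMS) (hH : A_HYP4) : MOM4X0 :=
  Pool.Agent.Helper42.WY.mom4X0 a_grp a_chg Pool.Agent.Helper96.WY.y_sgb a_ypwa
    Pool.Agent.Helper39.WY.o_tri (Pool.Agent.Helper42.WY.y_ex1 a_yext a_fline) h4 hN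
    Pool.Agent.Helper42.WY.a_zt1 hO hH

theorem a_den2' (h3 : MT₃W) (h4 : MT₄W) (hN : A_NRM) (hO : A_OMS) (hH3 : A_HYP3)
    (hH4 : A_HYP4) : Y_DEN2 :=
  a_den2 (a_mom3x h3 hN hH3) (a_mom4x h4 hN hO hH4) (a_mom4x0 h4 hN hO hH4)

end Pool.Agent.Helper38.FY
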