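import Pool.Agent.Helper38.FY.Goals
import Pool.Agent.Helper38.FW.Main
import Pool.Agent.Helper50.PPB.BKUM

/-! Reduction of the characters modulo the maximal ideal. -/

set_option autoImplicit false

namespace Pool.Agent.Helper38.FY

open NumberField Module IsDedekindDomain Pool.Agent.Helper51.SigLeo Pool.Agent.Helper38.FD
open Pool.Agent.Helper38.FW (IsOmega OmegaAt ballR norm_nat_le norm_frob_pow norm_chr norm_frob
  norm_pow_sub norm_pow_nat)

section norm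

variable {p : ℕ} [Fact p.Prime]

theorem norm_pow_sub' {a b : ℂ_[p]} (ha : ‖a‖ ≤ 1) (hb : ‖b‖ ≤ 1) (h : ‖a - b‖ < 1) (n : ℕ) :
    ‖a ^ n - b ^ n‖ < 1 := by
  induction n with
  | zero => simp
  | succ n ih =>
    have e : a ^ (n + 1) - b ^ (n + 1) = a ^ n * (a - b) + (a ^ n - b ^ n) * b := by ring
    rw [e]
    refine (IsUltrametricDist.norm_add_le_max _ _).trans_lt (max_lt ?_ ?_)
    · rw [norm_mul, norm_pow]
      calc ‖a‖ ^ n * ‖a - b‖ ≤ 1 * ‖a - b‖ :=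
            mul_le_mul_of_nonneg_right (pow_le_one₀ (norm_nonneg _) ha) (norm_nonneg _)
        _ < 1 := by rwa [one_mul]
    · rw [norm_mul]
      calc ‖a ^ n - b ^ n‖ * ‖b‖ ≤ ‖a ^ n - b ^ n‖ * 1 :=
            mul_le_mul_of_nonneg_left hb (norm_nonneg _)
        _ < 1 := by rwa [mul_one]

theorem sub_lt_iff {a b c : ℂ_[p]} (h : ‖a - b‖ < 1) : ‖a - c‖ < 1 ↔ ‖b - c‖ < 1 := by
  constructor
  · intro h1
    have e : b - c = -(a - b) + (a - c) := by ring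
    rw [e]
    refine (IsUltrametricDist.norm_add_le_max _ _).trans_lt (max_lt ?_ h1)
    rwa [norm_neg]
  · intro h1
    have e : a - c = (a - b) + (b - c) := by ring
    rw [e]
    exact (IsUltrametricDist.norm_add_le_max _ _).trans_lt (max_lt h h1)

theorem norm_sub_le_one {a b : ℂ_[p]} (ha : ‖a‖ ≤ 1) (hb : ‖b‖ ≤ 1) : ‖a - b‖ ≤ 1 := by
  rw [sub_eq_add_neg]
  refine (IsUltrametricDist.norm_add_le_max _ _).trans (max_le ha ?_)
  rwa [norm_neg]

/-- A root of unity of `p`-power order is congruent to `1`. -/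
theorem norm_root_sub {z : ℂ_[p]} {l : ℕ} (h : z ^ p ^ l = 1) : ‖z - 1‖ < 1 := by
  have hp : p.Prime := Fact.out
  have hz : ‖z‖ = 1 := by
    have h1 : ‖z‖ ^ p ^ l = 1 := by rw [← norm_pow, h, norm_one]
    exact (pow_eq_one_iff_of_nonneg (norm_nonneg _) (pow_ne_zero l hp.ne_zero)).1 h1
  by_contra hc
  have h2 : ‖z - ((1 : ℕ) : ℂ_[p])‖ = 1 := by
    rw [Nat.cast_one]
    refine le_antisymm (norm_sub_le_one hz.le norm_one.le) (not_lt.1 hc)
  have h3 := norm_frob_pow hz.le 1 l h2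
  rw [h, Nat.cast_one, sub_self, norm_zero] at h3
  exact zero_ne_one h3

/-- Frobenius, the other direction. -/
theorem norm_frob_lt {x : ℂ_[p]} (hx : ‖x‖ ≤ 1) (r : ℕ) (h : ‖x - r‖ < 1) : ‖x ^ p - r‖ < 1 := by
  have h1 := norm_pow_sub' hx (norm_nat_le r) h p
  have h2 := norm_pow_nat (p := p) r
  have e : x ^ p - (r : ℂ_[p]) = (x ^ p - (r : ℂ_[p]) ^ p) + ((r : ℂ_[p]) ^ p - r) := by ring
  rw [e]
  exact (IsUltrametricDist.norm_add_le_max _ _).trans_lt (max_lt h1 h2)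

theorem norm_frob_lt_pow {x : ℂ_[p]} (hx : ‖x‖ ≤ 1) (r s : ℕ) (h : ‖x - r‖ < 1) :
    ‖x ^ p ^ s - r‖ < 1 := by
  induction s with
  | zero => simpa using h
  | succ s ih =>
    rw [pow_succ, pow_mul]
    exact norm_frob_lt (by rw [norm_pow]; exact pow_le_one₀ (norm_nonneg _) hx) r ih

theorem frob_iff {x : ℂ_[p]} (hx : ‖x‖ ≤ 1) (r s : ℕ) : ‖x ^ p ^ s - r‖ < 1 ↔ ‖x - r‖ < 1 := by
  refine ⟨fun h ↦ ?_, norm_frob_lt_pow hx r s⟩
  by_contra hc
  have h1 : ‖x - r‖ = 1 := le_antisymm (norm_sub_le_one hx (norm_nat_le r)) (not_lt.1 hc)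
  have h2 := norm_frob_pow hx r s h1
  rw [h2] at h
  exact lt_irrefl _ h

/-- Roots of unity of order prime to `p`. -/
theorem eq_of_congr {m : ℕ} (hm : m.Coprime p) {x y : ℂ_[p]} (hx : x ^ m = 1) (hy : y ^ m = 1)
    (h : ‖x - y‖ < 1) : x = y := by
  have hp : p.Prime := Fact.out
  have hm0 : m ≠ 0 := by
    rintro rfl
    rw [Nat.coprime_zero_left] at hm
    exact hp.one_lt.ne' hm
  have hy0 : y ≠ 0 := by
    rintro rfl
    rw [zero_pow hm0] at hy
    exact zero_ne_one hy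
  have hyn : ‖y‖ = 1 := by
    have h1 : ‖y‖ ^ m = 1 := by rw [← norm_pow, hy, norm_one]
    exact (pow_eq_one_iff_of_nonneg (norm_nonneg _) hm0).1 h1
  by_contra hne
  refine Pool.Agent.Helper22.RP.one_sub_norm (p := p) hm (η := x / y) ?_ ?_ ?_
  · rw [div_pow, hx, hy, div_one]
  · intro h1
    exact hne ((div_eq_one_iff_eq hy0).1 h1)
  · have e : x / y - 1 = (x - y) / y := by field_simp
    rw [e, norm_div, hyn, div_one]
    exact h

end norm

section chr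

variable {p : ℕ} [Fact p.Prime] {K : Type} [Field K] [NumberField K]
  {χ ψ : Chr K (AlgebraicClosure K) ℂ_[p]} {M F : IntermediateField K (AlgebraicClosure K)}

theorem val_pow (χ : Chr K (AlgebraicClosure K) ℂ_[p]) (n : ℕ)
    (g : AlgebraicClosure K ≃ₐ[K] AlgebraicClosure K) :
    (((χ ^ n) g : ℂ_[p]ˣ) : ℂ_[p]) = ((χ g : ℂ_[p]ˣ) : ℂ_[p]) ^ n := by
  rw [MonoidHom.pow_apply, Units.val_pow_eq_pow_val]

theorem val_mul (χ ψ : Chr K (AlgebraicClosure K) ℂ_[p])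
    (g : AlgebraicClosure K ≃ₐ[K] AlgebraicClosure K) :
    (((χ * ψ) g : ℂ_[p]ˣ) : ℂ_[p]) = ((χ g : ℂ_[p]ˣ) : ℂ_[p]) * ((ψ g : ℂ_[p]ˣ) : ℂ_[p]) := by
  rw [MonoidHom.mul_apply, Units.val_mul]

theorem val_card (hM : CutsOut χ M) [FiniteDimensional K M]
    (g : AlgebraicClosure K ≃ₐ[K] AlgebraicClosure K) :
    ((χ g : ℂ_[p]ˣ) : ℂ_[p]) ^ finrank K M = 1 := by
  rw [← Units.val_pow_eq_pow_val, pow_card_desc hM g, Units.val_one]

/-- `κ = χ ψ` is congruent to `χ`. -/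
theorem norm_kap_sub (hM : CutsOut χ M) [FiniteDimensional K M] (hF : CutsOut ψ F) {l : ℕ}
    (hl : finrank K F = p ^ l) (g : AlgebraicClosure K ≃ₐ[K] AlgebraicClosure K) :
    ‖(((χ * ψ) g : ℂ_[p]ˣ) : ℂ_[p]) - ((χ g : ℂ_[p]ˣ) : ℂ_[p])‖ < 1 := by
  have hfF : FiniteDimensional K F := FiniteDimensional.of_finrank_pos (by
    rw [hl]; exact pow_pos (Fact.out : p.Prime).pos l)
  have h1 : ((ψ g : ℂ_[p]ˣ) : ℂ_[p]) ^ p ^ l = 1 := by rw [← hl]; exact val_card hF g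
  have h2 := norm_root_sub h1
  rw [val_mul]
  have e : ((χ g : ℂ_[p]ˣ) : ℂ_[p]) * ((ψ g : ℂ_[p]ˣ) : ℂ_[p]) - ((χ g : ℂ_[p]ˣ) : ℂ_[p]) =
      ((χ g : ℂ_[p]ˣ) : ℂ_[p]) * (((ψ g : ℂ_[p]ˣ) : ℂ_[p]) - 1) := by ring
  rw [e, norm_mul, norm_chr hM g, one_mul]
  exact h2

theorem norm_kap_pow_sub (hM : CutsOut χ M) [FiniteDimensional K M] (hF : CutsOut ψ F) {l : ℕ}
    (hl : finrank K F = p ^ l) (n : ℕ) (g : AlgebraicClosure K ≃ₐ[K] AlgebraicClosure K) :
    ‖((((χ * ψ) ^ n) g : ℂ_[p]ˣ) : ℂ_[p]) - (((χ ^ n) g : ℂ_[p]ˣ) : ℂ_[p])‖ < 1 := by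
  have hfF : FiniteDimensional K F := FiniteDimensional.of_finrank_pos (by
    rw [hl]; exact pow_pos (Fact.out : p.Prime).pos l)
  rw [val_pow, val_pow]
  refine norm_pow_sub' ?_ (norm_chr hM g).le (norm_kap_sub hM hF hl g) n
  rw [val_mul, norm_mul, norm_chr hM g, norm_chr hF g, one_mul]

/-- Only the part of order prime to `p` matters. -/
theorem isOmega_iff (hM : CutsOut χ M) [FiniteDimensional K M] (hF : CutsOut ψ F) {l : ℕ}
    (hl : finrank K F = p ^ l) (n : ℕ) : IsOmega ((χ * ψ) ^ n) ↔ IsOmega (χ ^ n) := by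
  refine forall_congr' fun g ↦ forall_congr' fun r ↦ ?_
  exact imp_congr_right fun _ ↦ sub_lt_iff (norm_kap_pow_sub hM hF hl n g)

/-- Frobenius. -/
theorem isOmega_frob (hM : CutsOut χ M) [FiniteDimensional K M] (n s : ℕ) :
    IsOmega ((χ ^ p ^ s) ^ n) ↔ IsOmega (χ ^ n) := by
  refine forall_congr' fun g ↦ forall_congr' fun r ↦ ?_
  refine imp_congr_right fun _ ↦ ?_
  rw [val_pow, val_pow, val_pow, ← pow_mul, mul_comm, pow_mul]
  exact frob_iff (by rw [norm_pow, norm_chr hM g, one_pow]) r s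

/-- The number `Q`. -/
theorem setQ_eq (hM : CutsOut χ M) [FiniteDimensional K M] (hc : (finrank K M).Coprime p)
    (hF : CutsOut ψ F) {l : ℕ} (hl : finrank K F = p ^ l) :
    {f : ℕ | 0 < f ∧ ∀ g : AlgebraicClosure K ≃ₐ[K] AlgebraicClosure K,
      ‖(((χ * ψ) g : ℂ_[p]ˣ) : ℂ_[p]) ^ p ^ f - (((χ * ψ) g : ℂ_[p]ˣ) : ℂ_[p])‖ < 1} =
    {f : ℕ | 0 < f ∧ finrank K M ∣ p ^ f - 1} := by
  have hp : p.Prime := Fact.out
  have hfF : FiniteDimensional K F := FiniteDimensional.of_finrank_pos (by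
    rw [hl]; exact pow_pos hp.pos l)
  ext f
  simp only [Set.mem_ofPred_eq]
  refine and_congr_right fun hf ↦ ?_
  have hpf : 0 < p ^ f := pow_pos hp.pos f
  -- the condition for `χ`
  have key : ∀ g : AlgebraicClosure K ≃ₐ[K] AlgebraicClosure K,
      ‖(((χ * ψ) g : ℂ_[p]ˣ) : ℂ_[p]) ^ p ^ f - (((χ * ψ) g : ℂ_[p]ˣ) : ℂ_[p])‖ < 1 ↔
      ‖((χ g : ℂ_[p]ˣ) : ℂ_[p]) ^ p ^ f - ((χ g : ℂ_[p]ˣ) : ℂ_[p])‖ < 1 := by
    intro g
    have h1 := norm_kap_pow_sub hM hF hl (p ^ f) g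
    rw [val_pow, val_pow] at h1
    rw [sub_lt_iff h1]
    have h2 := norm_kap_sub hM hF hl g
    constructor
    · intro h3
      have e := (sub_lt_iff (c := ((χ g : ℂ_[p]ˣ) : ℂ_[p]) ^ p ^ f) h2).1 (by
        rw [norm_sub_rev]; exact h3)
      rwa [norm_sub_rev] at e
    · intro h3
      have e := (sub_lt_iff (c := ((χ g : ℂ_[p]ˣ) : ℂ_[p]) ^ p ^ f) h2).2 (by
        rw [norm_sub_rev]; exact h3)
      rwa [norm_sub_rev] at e
  simp only [key]
  have hgM : IsGalois K M := isGalois_of_cutsOut hM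
  obtain ⟨χ', hinj, hχ'⟩ := exists_faithful hM
  have hcyc : IsCyclic (M ≃ₐ[K] M) := Pool.Agent.Helper50.PPB.cyc_of_cutsOut hM
  constructor
  · intro h
    -- `χ(g)^(p^f - 1) = 1` for all `g`
    have h1 : ∀ g, (χ g) ^ (p ^ f - 1) = 1 := by
      intro g
      have e1 : (((χ g : ℂ_[p]ˣ) : ℂ_[p]) ^ p ^ f) = ((χ g : ℂ_[p]ˣ) : ℂ_[p]) :=
        eq_of_congr hc (by rw [← pow_mul, mul_comm, pow_mul, val_card hM g, one_pow])
          (val_card hM g) (h g)
      have e2 : (χ g) ^ p ^ f = χ g := Units.ext (by rw [Units.val_pow_eq_pow_val]; exact e1)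
      have e3 : χ g * (χ g) ^ (p ^ f - 1) = χ g * 1 := by
        rw [mul_one, ← pow_succ', Nat.sub_add_cancel hpf, e2]
      exact mul_left_cancel e3
    obtain ⟨δ, hδ⟩ := IsCyclic.exists_generator (α := (M ≃ₐ[K] M))
    have h2 : δ ^ (p ^ f - 1) = 1 := by
      apply hinj
      obtain ⟨g, hg⟩ := exists_lift δ
      rw [map_pow, map_one, ← hχ' g δ hg]
      exact h1 g
    have h3 : orderOf δ = finrank K M := by
      rw [orderOf_eq_card_of_forall_mem_zpowers hδ, IsGalois.card_aut_eq_finrank]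
    rw [← h3]
    exact orderOf_dvd_of_pow_eq_one h2
  · intro h g
    have e1 : (((χ g : ℂ_[p]ˣ) : ℂ_[p]) ^ p ^ f) = ((χ g : ℂ_[p]ˣ) : ℂ_[p]) := by
      obtain ⟨k, hk⟩ := h
      have e2 : p ^ f = finrank K M * k + 1 := by omega
      rw [e2, pow_succ, pow_mul, val_card hM g, one_pow, one_mul]
    rw [e1, sub_self, norm_zero]
    exact one_pos

/-- Every `g` acts on the `p`-th roots of unity as a power. -/
theorem exists_act (g : AlgebraicClosure K ≃ₐ[K] AlgebraicClosure K) : ∃ r : ℕ,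
    ∀ ξ : AlgebraicClosure K, ξ ^ p = 1 → g ξ = ξ ^ r := by
  have hp : p.Prime := Fact.out
  have hchar : CharZero (AlgebraicClosure K) :=
    charZero_of_injective_algebraMap (algebraMap K (AlgebraicClosure K)).injective
  have hpne : NeZero p := ⟨hp.ne_zero⟩
  obtain ⟨ε, hε⟩ := HasEnoughRootsOfUnity.exists_primitiveRoot (AlgebraicClosure K) p
  obtain ⟨r, -, hr⟩ := hε.eq_pow_of_pow_eq_one (ξ := g ε) (by
    rw [← map_pow, hε.pow_eq_one, map_one])
  refine ⟨r, fun ξ hξ ↦ ?_⟩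
  obtain ⟨i, -, hi⟩ := hε.eq_pow_of_pow_eq_one hξ
  rw [← hi, map_pow, ← hr, ← pow_mul, ← pow_mul, mul_comm]

/-- The unitary case. -/
theorem unitary (hM : CutsOut χ M) [FiniteDimensional K M] (hc : (finrank K M).Coprime p)
    (h1 : ∃ j : ℕ, IsOmega (χ ^ (1 + p ^ j))) (h2 : ¬ IsOmega (χ ^ 2)) :
    ∃ j : ℕ, IsOmega (χ ^ (1 + p ^ j)) ∧ orderOf (p : ZMod (finrank K M)) = 2 * j := by
  have hp : p.Prime := Fact.out
  obtain ⟨j, hj⟩ := h1
  set m := finrank K M with hm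
  have hm0 : 0 < m := finrank_pos
  have : NeZero m := ⟨hm0.ne'⟩
  set f := orderOf (p : ZMod m) with hf
  have hf0 : 0 < f := by
    obtain ⟨u, hu⟩ := (ZMod.isUnit_iff_coprime p m).2 hc.symm
    rw [hf, ← hu, orderOf_units]
    exact orderOf_pos u
  -- powers of `p` as exponents
  have hexp : ∀ (a b : ℕ), a ≡ b [MOD f] → ∀ g, ((χ g : ℂ_[p]ˣ) : ℂ_[p]) ^ p ^ a =
      ((χ g : ℂ_[p]ˣ) : ℂ_[p]) ^ p ^ b := by
    intro a b hab g
    have e1 : (p : ZMod m) ^ a = (p : ZMod m) ^ b := by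
      obtain ⟨u, hu⟩ := (ZMod.isUnit_iff_coprime p m).2 hc.symm
      rw [hf, ← hu, orderOf_units] at hab
      rw [← hu, ← Units.val_pow_eq_pow_val, ← Units.val_pow_eq_pow_val,
        pow_eq_pow_iff_modEq.2 hab]
    have e2 : p ^ a ≡ p ^ b [MOD m] := by
      rw [← ZMod.natCast_eq_natCast_iff]
      push_cast
      exact e1
    have e3 : p ^ a ≡ p ^ b [MOD orderOf (χ g)] :=
      e2.of_dvd (orderOf_dvd_of_pow_eq_one (pow_card_desc hM g))
    have e4 := pow_eq_pow_iff_modEq.2 e3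
    rw [← Units.val_pow_eq_pow_val, e4, Units.val_pow_eq_pow_val]
  have hn : ∀ g, ‖((χ g : ℂ_[p]ˣ) : ℂ_[p])‖ = 1 := fun g ↦ norm_chr hM g
  -- `f ∣ 2 j`
  have hd : f ∣ 2 * j := by
    rw [hf, orderOf_dvd_iff_pow_eq_one]
    have hcyc : IsCyclic (M ≃ₐ[K] M) := Pool.Agent.Helper50.PPB.cyc_of_cutsOut hM
    have hgM : IsGalois K M := isGalois_of_cutsOut hM
    obtain ⟨χ', hinj, hχ'⟩ := exists_faithful hM
    obtain ⟨δ, hδ⟩ := IsCyclic.exists_generator (α := (M ≃ₐ[K] M))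
    have h3 : orderOf δ = m := by
      rw [orderOf_eq_card_of_forall_mem_zpowers hδ, IsGalois.card_aut_eq_finrank]
    have hall : ∀ g, ((χ g : ℂ_[p]ˣ) : ℂ_[p]) ^ p ^ (2 * j) = ((χ g : ℂ_[p]ˣ) : ℂ_[p]) := by
      intro g
      obtain ⟨r, hr⟩ := exists_act (p := p) g
      have a1 := hj g r hr
      rw [val_pow] at a1
      set z : ℂ_[p] := ((χ g : ℂ_[p]ˣ) : ℂ_[p]) with hz
      have a2 := norm_frob_lt_pow (by rw [norm_pow, hn g, one_pow]) r j a1
      -- `z^((1 + p^j) p^j) ≡ z^(1 + p^j)`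
      have a3 : ‖(z ^ (1 + p ^ j)) ^ p ^ j - z ^ (1 + p ^ j)‖ < 1 := by
        have e : (z ^ (1 + p ^ j)) ^ p ^ j - z ^ (1 + p ^ j) =
            ((z ^ (1 + p ^ j)) ^ p ^ j - r) + -(z ^ (1 + p ^ j) - r) := by ring
        rw [e]
        refine (IsUltrametricDist.norm_add_le_max _ _).trans_lt (max_lt a2 ?_)
        rwa [norm_neg]
      have a4 : (z ^ (1 + p ^ j)) ^ p ^ j - z ^ (1 + p ^ j) =
          z ^ p ^ j * (z ^ p ^ (2 * j) - z) := by
        have e1 : (z ^ (1 + p ^ j)) ^ p ^ j = z ^ p ^ j * z ^ p ^ (2 * j) := by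
          rw [← pow_mul, ← pow_add]
          congr 1
          rw [two_mul, pow_add]
          ring
        rw [e1, pow_add, pow_one]
        ring
      rw [a4, norm_mul, norm_pow, hn g, one_pow, one_mul] at a3
      exact eq_of_congr hc (by rw [← pow_mul, mul_comm, pow_mul, val_card hM g, one_pow])
        (val_card hM g) a3
    have h4 : δ ^ (p ^ (2 * j)) = δ := by
      apply hinj
      obtain ⟨g, hg⟩ := exists_lift δ
      rw [map_pow, ← hχ' g δ hg]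
      exact Units.ext (by rw [Units.val_pow_eq_pow_val]; exact hall g)
    have h5 : p ^ (2 * j) ≡ 1 [MOD m] := by
      rw [← h3, ← pow_eq_pow_iff_modEq, h4, pow_one]
    have h6 := (ZMod.natCast_eq_natCast_iff _ _ _).2 h5
    push_cast at h6
    exact h6
  -- `f` does not divide `j`
  have hnd : ¬ f ∣ j := by
    intro h
    apply h2
    have e : χ ^ 2 = χ ^ (1 + p ^ j) := by
      refine MonoidHom.ext fun g ↦ Units.ext ?_
      have e1 := hexp j 0 ((Nat.modEq_zero_iff_dvd).2 h) g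
      rw [pow_zero, pow_one] at e1
      rw [val_pow, val_pow, pow_add, pow_one, e1, pow_two]
    rw [e]
    exact hj
  -- `f = 2 j'`
  have heven : ∃ j', f = 2 * j' := by
    rcases Nat.even_or_odd f with h | h
    · obtain ⟨c, hc'⟩ := h
      exact ⟨c, by omega⟩
    · exfalso
      apply hnd
      exact (Nat.Coprime.dvd_mul_left (Nat.Coprime.symm (Nat.coprime_two_left.2 h))).1 hd
  obtain ⟨j', hj'⟩ := heven
  refine ⟨j', ?_, hj'⟩
  -- `j ≡ j'` modulo `f`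
  have hmod : j ≡ j' [MOD f] := by
    rw [hj'] at hd hnd ⊢
    obtain ⟨a, ha⟩ := hd
    have hja : j = j' * a := by nlinarith
    rcases Nat.even_or_odd a with h | h
    · exfalso
      obtain ⟨b, hb⟩ := h
      apply hnd
      exact ⟨b, by rw [hja, hb]; ring⟩
    · obtain ⟨b, hb⟩ := h
      have : j = j' + 2 * j' * b := by rw [hja, hb]; ring
      rw [this]
      exact (Nat.modEq_iff_dvd' (by omega)).2 ⟨b, by omega⟩ |>.symm
  have e : χ ^ (1 + p ^ j') = χ ^ (1 + p ^ j) := by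
    refine MonoidHom.ext fun g ↦ Units.ext ?_
    rw [val_pow, val_pow, pow_add, pow_add, pow_one, hexp j j' hmod g]
  rw [e]
  exact hj

end chr

end Pool.Agent.Helper38.FY
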